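import Pool.Agent.N993.WV.Stm

/-!
# Project WV (helper993), part REP (helper371): few families of words have a given repetition
-/

set_option autoImplicit false

namespace Pool.Agent.N371.WV

open Pool.Agent.N993.WV

variable {n : ℕ}

/-- the word with the letter `a` in `Y` of rank `c` (counted from the first argument) replaced by
`g c a` -/
def rp (Y : Finset (Fin n)) (g : ℕ → Fin n → Fin n) : ℕ → List (Fin n) → List (Fin n)
  | _, [] => []
  | c, a :: w => if a ∈ Y then g c a :: rp Y g (c + 1) w else a :: rp Y g c w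

lemma rp_length (Y : Finset (Fin n)) (g : ℕ → Fin n → Fin n) :
    ∀ (w : List (Fin n)) (c : ℕ), (rp Y g c w).length = w.length := by
  intro w
  induction w with
  | nil => intro c; rfl
  | cons a w ih =>
    intro c
    unfold rp
    split_ifs
    · simp [ih]
    · simp [ih]

lemma del_cons_mem {Y : Finset (Fin n)} {a : Fin n} (h : a ∈ Y) (w : List (Fin n)) :
    del Y (a :: w) = a :: del Y w := by
  unfold del
  rw [List.filter_cons_of_pos]
  simpa using h

lemma del_cons_not {Y : Finset (Fin n)} {a : Fin n} (h : a ∉ Y) (w : List (Fin n)) :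
    del Y (a :: w) = del Y w := by
  unfold del
  rw [List.filter_cons_of_neg]
  simpa using h

lemma del_rp {Y : Finset (Fin n)} {g : ℕ → Fin n → Fin n} (hg : ∀ c a, a ∈ Y → g c a ∈ Y) :
    ∀ (w : List (Fin n)) (c k : ℕ),
      (del Y (rp Y g c w))[k]? = ((del Y w)[k]?).map (g (c + k)) := by
  intro w
  induction w with
  | nil => intro c k; rfl
  | cons a w ih =>
    intro c k
    by_cases ha : a ∈ Y
    · have h1 : rp Y g c (a :: w) = g c a :: rp Y g (c + 1) w := by
        rw [rp, if_pos ha]
      rw [h1, del_cons_mem (hg c a ha), del_cons_mem ha]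
      cases k with
      | zero => simp
      | succ k =>
        rw [List.getElem?_cons_succ, List.getElem?_cons_succ, ih]
        congr 2
        omega
    · have h1 : rp Y g c (a :: w) = a :: rp Y g c w := by
        rw [rp, if_neg ha]
      rw [h1, del_cons_not ha, del_cons_not ha, ih]

lemma recover {Y : Finset (Fin n)} {g g' : ℕ → Fin n → Fin n} (hg : ∀ c a, a ∈ Y → g c a ∈ Y)
    (hg' : ∀ c a, a ∈ Y → g' c a ∈ Y) : ∀ (w w' : List (Fin n)) (c : ℕ),
      rp Y g c w = rp Y g' c w' → del Y w = del Y w' → w = w' := by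
  intro w
  induction w with
  | nil =>
    intro w' c h _
    have h1 := congrArg List.length h
    rw [rp_length, rp_length] at h1
    exact (List.eq_nil_of_length_eq_zero h1.symm).symm
  | cons a w ih =>
    intro w' c h hd
    cases w' with
    | nil =>
      have h1 := congrArg List.length h
      rw [rp_length, rp_length] at h1
      simp at h1
    | cons b w' =>
      by_cases ha : a ∈ Y
      · by_cases hb : b ∈ Y
        · rw [rp, rp, if_pos ha, if_pos hb, List.cons.injEq] at h
          rw [del_cons_mem ha, del_cons_mem hb, List.cons.injEq] at hd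
          rw [hd.1, ih w' (c + 1) h.2 hd.2]
        · rw [rp, rp, if_pos ha, if_neg hb, List.cons.injEq] at h
          exact absurd (h.1 ▸ hg c a ha) hb
      · by_cases hb : b ∈ Y
        · rw [rp, rp, if_neg ha, if_pos hb, List.cons.injEq] at h
          exact absurd (h.1.symm ▸ hg' c b hb) ha
        · rw [rp, rp, if_neg ha, if_neg hb, List.cons.injEq] at h
          rw [del_cons_not ha, del_cons_not hb] at hd
          rw [h.1, ih w' c h.2 hd]

/-- the replacement of the letters of rank `q, …, q + μ - 1` by `z` -/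
def gz {Y : Finset (Fin n)} {μ : ℕ} (q : ℕ) (z : Fin μ → Y) (c : ℕ) (a : Fin n) : Fin n :=
  if h : q ≤ c ∧ c < q + μ then (z ⟨c - q, by omega⟩ : Fin n) else a

lemma gz_mem {Y : Finset (Fin n)} {μ : ℕ} (q : ℕ) (z : Fin μ → Y) (c : ℕ) (a : Fin n)
    (ha : a ∈ Y) : gz q z c a ∈ Y := by
  unfold gz
  split_ifs with h
  · exact (z _).2
  · exact ha

/-- the new function -/
def nw {Y : Finset (Fin n)} {μ ℓ : ℕ} (q : ℕ) (z : Fin μ → Y) (w : Fin ℓ → Fin n) :
    Fin ℓ → Fin n := fun p => (rp Y (gz q z) 0 (List.ofFn w))[(p : ℕ)]'(by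
      rw [rp_length, List.length_ofFn]; exact p.2)

lemma ofFn_nw {Y : Finset (Fin n)} {μ ℓ : ℕ} (q : ℕ) (z : Fin μ → Y) (w : Fin ℓ → Fin n) :
    List.ofFn (nw q z w) = rp Y (gz q z) 0 (List.ofFn w) := by
  apply List.ext_getElem
  · rw [rp_length, List.length_ofFn, List.length_ofFn]
  · intro k h1 h2
    rw [List.getElem_ofFn]
    rfl

/-- the event -/
def Ev {I : Type} (ℓ : I → ℕ) (Y : Finset (Fin n)) (μ : ℕ) (t t' : I) (i i' : ℕ)
    (w : ∀ t, Fin (ℓ t) → Fin n) : Prop := ∀ k < μ, ∃ a,
      (del Y (List.ofFn (w t)))[i + k]? = some a ∧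
      (del Y (List.ofFn (w t')))[i' + k]? = some a

lemma main {I : Type} [Fintype I] (ℓ : I → ℕ) (Y : Finset (Fin n)) (μ : ℕ) (t t' : I)
    (i i' : ℕ) (h : t ≠ t' ∨ i < i') :
    Nat.card {w : ∀ t, Fin (ℓ t) → Fin n // Ev ℓ Y μ t t' i i' w} * Y.card ^ μ ≤
      Nat.card (∀ t, Fin (ℓ t) → Fin n) := by
  classical
  have hY : Y.card ^ μ = Nat.card (Fin μ → Y) := by
    rw [Nat.card_fun, Nat.card_eq_fintype_card, Fintype.card_coe, Nat.card_fin]
  rw [hY, ← Nat.card_prod]
  refine Nat.card_le_card_of_injective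
    (fun x : {w : ∀ t, Fin (ℓ t) → Fin n // Ev ℓ Y μ t t' i i' w} × (Fin μ → Y) =>
      Function.update x.1.1 t' (nw i' x.2 (x.1.1 t'))) ?_
  rintro ⟨⟨w, hw⟩, z⟩ ⟨⟨u, hu⟩, y⟩ heq
  have heq' : Function.update w t' (nw i' z (w t')) = Function.update u t' (nw i' y (u t')) := heq
  have h1 : nw i' z (w t') = nw i' y (u t') := by
    have := congrFun heq' t'
    rwa [Function.update_self, Function.update_self] at this
  have h2 : ∀ s, s ≠ t' → w s = u s := by
    intro s hs
    have := congrFun heq' s
    rwa [Function.update_of_ne hs, Function.update_of_ne hs] at this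
  have h3 : rp Y (gz i' z) 0 (List.ofFn (w t')) = rp Y (gz i' y) 0 (List.ofFn (u t')) := by
    rw [← ofFn_nw, ← ofFn_nw, h1]
  have h4 : ∀ k : ℕ, ((del Y (List.ofFn (w t')))[k]?).map (gz i' z k) =
      ((del Y (List.ofFn (u t')))[k]?).map (gz i' y k) := by
    intro k
    have e1 := del_rp (gz_mem i' z) (List.ofFn (w t')) 0 k
    have e2 := del_rp (gz_mem i' y) (List.ofFn (u t')) 0 k
    rw [zero_add] at e1 e2
    rw [← e1, ← e2, h3]
  -- outside the window
  have h5 : ∀ k : ℕ, ¬ (i' ≤ k ∧ k < i' + μ) →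
      (del Y (List.ofFn (w t')))[k]? = (del Y (List.ofFn (u t')))[k]? := by
    intro k hk
    have := h4 k
    have e1 : gz i' z k = id := by
      funext a
      rw [gz, dif_neg hk]
      rfl
    have e2 : gz i' y k = id := by
      funext a
      rw [gz, dif_neg hk]
      rfl
    rw [e1, e2, Option.map_id, id, id] at this
    exact this
  -- the letters `z`
  have hz : z = y := by
    funext j
    have := h4 (i' + j)
    obtain ⟨a, -, ha⟩ := hw j j.2
    obtain ⟨b, -, hb⟩ := hu j j.2
    rw [ha, hb, Option.map_some, Option.map_some, Option.some.injEq] at this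
    have hc : i' ≤ i' + (j : ℕ) ∧ i' + (j : ℕ) < i' + μ := ⟨by omega, by have := j.2; omega⟩
    rw [gz, gz, dif_pos hc, dif_pos hc] at this
    have hj : (⟨i' + (j : ℕ) - i', by omega⟩ : Fin μ) = j := by
      apply Fin.ext
      show i' + (j : ℕ) - i' = j
      omega
    rw [hj] at this
    exact Subtype.ext this
  -- the deleted words
  have h6 : ∀ k : ℕ, (del Y (List.ofFn (w t')))[k]? = (del Y (List.ofFn (u t')))[k]? := by
    intro k
    induction k using Nat.strong_induction_on with
    | _ k ih =>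
      by_cases hk : i' ≤ k ∧ k < i' + μ
      · obtain ⟨j, rfl⟩ := Nat.exists_eq_add_of_le hk.1
        obtain ⟨a, ha1, ha2⟩ := hw j (by omega)
        obtain ⟨b, hb1, hb2⟩ := hu j (by omega)
        rw [ha2, hb2, ← ha1, ← hb1]
        by_cases ht : t = t'
        · subst ht
          have hi : i < i' := h.resolve_left (fun h => h rfl)
          exact ih (i + j) (by omega)
        · rw [h2 t ht]
      · exact h5 k hk
  have h7 : del Y (List.ofFn (w t')) = del Y (List.ofFn (u t')) := List.ext_getElem? h6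
  have h8 : w t' = u t' := List.ofFn_injective (recover (gz_mem i' z) (gz_mem i' y) _ _ 0 h3 h7)
  have h9 : w = u := by
    funext s
    by_cases hs : s = t'
    · subst hs
      exact h8
    · exact h2 s hs
  subst h9
  subst hz
  rfl

theorem t_REP : S_REP := by
  intro n I _ ℓ Y μ t t' i i' hne
  by_cases h : t ≠ t' ∨ i < i'
  · exact main ℓ Y μ t t' i i' h
  · push Not at h
    obtain ⟨h1, h2⟩ := h
    subst h1
    have h3 : i' < i := lt_of_le_of_ne h2 fun e => hne (by rw [e])
    have h4 := main ℓ Y μ t t i' i (Or.inr h3)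
    refine le_trans (le_of_eq ?_) h4
    congr 1
    refine Nat.card_congr (Equiv.subtypeEquivRight fun w => ?_)
    constructor
    · intro hw k hk
      obtain ⟨a, h5, h6⟩ := hw k hk
      exact ⟨a, h6, h5⟩
    · intro hw k hk
      obtain ⟨a, h5, h6⟩ := hw k hk
      exact ⟨a, h6, h5⟩

end Pool.Agent.N371.WV
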